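import Pool.Agent.helper32.NN.Spec

/-! Module COD of project NN (MP_3938c6_al). -/

set_option autoImplicit false

namespace Pool.Agent.NN

universe u v

theorem COD (hFDI : FDI_stmt.{u, v}) (hSUM : SUM_stmt.{u, v}) : COD_stmt.{u, v} := by
  intro K U _ _ _ A hC N F hN hF hFG hA
  by_contra hne
  obtain ⟨J, hJ, hFJ, m, hm⟩ := hFDI K U A hC F hF hFG
  have hNN : N * N ≤ N := le_trans (mul_le_mul' hN.1 le_rfl) hN.2.1
  obtain ⟨n, hn⟩ := hC.prop N hN.1 hNN hne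
  obtain ⟨-, k, hk⟩ := hSUM K U A N J hC.mul hN hJ ⟨n, hn⟩ ⟨m, hm⟩
  have hAle : A ≤ N ⊔ J := le_trans hA (sup_le_sup le_rfl hFJ)
  apply hC.notn k
  rw [eq_bot_iff, ← hk]
  exact pow_le_pow_left' hAle k

end Pool.Agent.NN
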